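import Pool.Agent.H20.MT.Stmts
import Pool.Agent.H20.MT.Rho

/-! Project MTA, module THPSI: from primes to prime powers. -/

set_option autoImplicit false

namespace MTA
open Finset

theorem THPSI_lip : ∃ K : ℝ, 0 ≤ K ∧ ∀ u v : ℝ, |rho u - rho v| ≤ K * |u - v| := by
  obtain ⟨C, hC⟩ := ContDiff.lipschitzWith_of_hasCompactSupport rho_hasCompactSupport rho_contDiff
    (by simp)
  refine ⟨C, C.2, fun u v => ?_⟩
  have := hC.dist_le_mul u v
  rwa [Real.dist_eq, Real.dist_eq] at this

theorem THPSI_harm (N : ℕ) (hN : 1 ≤ N) :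
    ∑ n ∈ Icc 1 N, Real.log n / n ≤ Real.log N * (1 + Real.log N) := by
  have hN' : (1 : ℝ) ≤ N := by exact_mod_cast hN
  have h1 : ∑ n ∈ Icc 1 N, Real.log n / n ≤ ∑ n ∈ Icc 1 N, Real.log N * ((n : ℝ)⁻¹) := by
    apply Finset.sum_le_sum
    intro n hn
    have hn' := Finset.mem_Icc.mp hn
    have hn1 : (1 : ℝ) ≤ n := by exact_mod_cast hn'.1
    rw [div_eq_mul_inv]
    apply mul_le_mul_of_nonneg_right _ (by positivity)
    apply Real.log_le_log (by linarith)
    exact_mod_cast hn'.2
  refine le_trans h1 ?_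
  rw [← Finset.mul_sum]
  apply mul_le_mul_of_nonneg_left _ (Real.log_nonneg hN')
  have h2 := harmonic_le_one_add_log N
  rw [harmonic_eq_sum_Icc] at h2
  push_cast at h2
  exact h2

theorem THPSI : S_THPSI := by
  intro c hc
  obtain ⟨K, hK0, hK⟩ := THPSI_lip
  have hc' : (1 : ℝ) ≤ c := by exact_mod_cast hc
  refine ⟨(2 * K * 110 + 20) * (8 * c) ^ (3 / 5 : ℝ), 2, by positivity, ?_⟩
  intro x q _ χ hx
  set X : ℝ := c * x with hX
  have hX2 : 2 ≤ X := by rw [hX]; nlinarith
  have hX0 : 0 < X := by linarith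
  have h8 : (8 : ℝ) * c * x = 8 * X := by rw [hX]; ring
  set N : ℕ := ⌊8 * X⌋₊ with hN
  have hN1 : (1 : ℝ) ≤ N := by
    have : 1 ≤ N := by
      rw [hN]; apply Nat.le_floor; push_cast; linarith
    exact_mod_cast this
  have hNle : (N : ℝ) ≤ 8 * X := Nat.floor_le (by linarith)
  have hNlt : 8 * X < N + 1 := Nat.lt_floor_add_one _
  -- thetaR
  have hth : thetaR c x χ = ∑ p ∈ (Icc 1 N).filter Nat.Prime,
      (Real.log p : ℂ) * χ p * (rho (Real.log (((p : ℝ) - 1) / X)) : ℂ) := by
    unfold thetaR
    rw [h8, ← hN, ← hX]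
    symm
    apply Finset.sum_subset
    · intro p hp
      rw [Finset.mem_filter, Finset.mem_Icc] at hp ⊢
      exact ⟨⟨hp.2.two_le, by omega⟩, hp.2⟩
    · intro p hp hp'
      rw [Finset.mem_filter, Finset.mem_Icc] at hp hp'
      have hpN : p = N + 1 := by
        by_contra h
        exact hp' ⟨⟨by omega, by omega⟩, hp.2⟩
      have : rho (Real.log (((p : ℝ) - 1) / X)) = 0 := by
        apply rho_zero
        rw [hpN]
        push_cast
        rw [add_sub_cancel_right]
        have h1 : Real.exp 2 ≤ N / X := by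
          rw [le_div_iff₀ hX0]
          have he := Real.exp_one_lt_d9
          have h2 : Real.exp 2 = Real.exp 1 * Real.exp 1 := by rw [← Real.exp_add]; norm_num
          have h3 : Real.exp 2 ≤ 7.5 := by
            rw [h2]; nlinarith [Real.exp_pos 1]
          nlinarith
        have h2 : 2 ≤ Real.log (N / X) := by
          rw [Real.le_log_iff_exp_le (by positivity)]; exact h1
        exact le_trans h2 (le_abs_self _)
      rw [this]; simp
  -- psiR
  have hps : psiR X χ = ∑ p ∈ (Icc 1 N).filter Nat.Prime,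
      (Real.log p : ℂ) * χ p * (rho (Real.log ((p : ℝ) / X)) : ℂ) +
      ∑ n ∈ (Icc 1 N).filter (fun n => ¬ n.Prime),
        (ArithmeticFunction.vonMangoldt n : ℂ) * χ n * (rho (Real.log (n / X)) : ℂ) := by
    unfold psiR
    rw [← hN, ← Finset.sum_filter_add_sum_filter_not (Icc 1 N) Nat.Prime]
    congr 1
    apply Finset.sum_congr rfl
    intro p hp
    rw [ArithmeticFunction.vonMangoldt_apply_prime (Finset.mem_filter.mp hp).2]
  rw [hth, hps, ← sub_sub, ← Finset.sum_sub_distrib]
  refine le_trans (norm_sub_le _ _) ?_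
  have hA : ‖∑ p ∈ (Icc 1 N).filter Nat.Prime,
      ((Real.log p : ℂ) * χ p * (rho (Real.log (((p : ℝ) - 1) / X)) : ℂ) -
      (Real.log p : ℂ) * χ p * (rho (Real.log ((p : ℝ) / X)) : ℂ))‖ ≤
      2 * K * (Real.log N * (1 + Real.log N)) := by
    calc _ ≤ ∑ p ∈ (Icc 1 N).filter Nat.Prime, 2 * K * (Real.log p / p) := by
          refine le_trans (norm_sum_le _ _) ?_
          apply Finset.sum_le_sum
          intro p hp
          have hpp := (Finset.mem_filter.mp hp).2
          have hp2 : (2 : ℝ) ≤ p := by exact_mod_cast hpp.two_le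
          rw [← mul_sub, norm_mul, norm_mul]
          have hlog : 0 ≤ Real.log p := Real.log_nonneg (by linarith)
          have e1 : ‖(Real.log p : ℂ)‖ = Real.log p := by
            rw [Complex.norm_real, Real.norm_of_nonneg hlog]
          have e2 : ‖χ p‖ ≤ 1 := χ.norm_le_one _
          have e3 : ‖((rho (Real.log (((p : ℝ) - 1) / X)) : ℂ) - (rho (Real.log ((p : ℝ) / X)) : ℂ))‖ ≤
              K * (2 / p) := by
            rw [← Complex.ofReal_sub, Complex.norm_real, Real.norm_eq_abs]
            refine le_trans (hK _ _) ?_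
            apply mul_le_mul_of_nonneg_left _ hK0
            have hpm : 0 < (p : ℝ) - 1 := by linarith
            have h1 : Real.log (((p : ℝ) - 1) / X) - Real.log ((p : ℝ) / X) =
                - Real.log ((p : ℝ) / (p - 1)) := by
              rw [Real.log_div hpm.ne' hX0.ne', Real.log_div (by positivity) hX0.ne',
                Real.log_div (by positivity) hpm.ne']
              ring
            rw [h1, abs_neg, abs_of_nonneg (Real.log_nonneg (by
              rw [le_div_iff₀ hpm]; linarith))]
            have h2 : Real.log ((p : ℝ) / (p - 1)) ≤ (p : ℝ) / (p - 1) - 1 :=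
              Real.log_le_sub_one_of_pos (by positivity)
            have h3 : (p : ℝ) / (p - 1) - 1 = 1 / (p - 1) := by field_simp; ring
            rw [h3] at h2
            refine le_trans h2 ?_
            rw [div_le_div_iff₀ hpm (by linarith)]
            linarith
          rw [e1]
          calc Real.log p * ‖χ p‖ * _ ≤ Real.log p * 1 * (K * (2 / p)) := by
                apply mul_le_mul _ e3 (norm_nonneg _) (by positivity)
                exact mul_le_mul_of_nonneg_left e2 hlog
            _ = 2 * K * (Real.log p / p) := by ring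
      _ ≤ ∑ p ∈ Icc 1 N, 2 * K * (Real.log p / p) := by
          apply Finset.sum_le_sum_of_subset_of_nonneg (Finset.filter_subset _ _)
          intro n hn _
          have hn1 : (1 : ℝ) ≤ n := by exact_mod_cast (Finset.mem_Icc.mp hn).1
          have := Real.log_nonneg hn1
          positivity
      _ ≤ _ := by
          rw [← Finset.mul_sum]
          apply mul_le_mul_of_nonneg_left _ (by positivity)
          exact THPSI_harm N (by exact_mod_cast hN1)
  have hB : ‖∑ n ∈ (Icc 1 N).filter (fun n => ¬ n.Prime),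
        (ArithmeticFunction.vonMangoldt n : ℂ) * χ n * (rho (Real.log (n / X)) : ℂ)‖ ≤
      2 * Real.sqrt (8 * X) * Real.log (8 * X) := by
    calc _ ≤ ∑ n ∈ (Icc 1 N).filter (fun n => ¬ n.Prime), ArithmeticFunction.vonMangoldt n := by
          refine le_trans (norm_sum_le _ _) ?_
          apply Finset.sum_le_sum
          intro n _
          rw [norm_mul, norm_mul]
          have h0 : 0 ≤ ArithmeticFunction.vonMangoldt n := ArithmeticFunction.vonMangoldt_nonneg
          have e1 : ‖(ArithmeticFunction.vonMangoldt n : ℂ)‖ = ArithmeticFunction.vonMangoldt n := by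
            rw [Complex.norm_real, Real.norm_of_nonneg h0]
          have e2 : ‖χ n‖ ≤ 1 := χ.norm_le_one _
          have e3 : ‖(rho (Real.log (n / X)) : ℂ)‖ ≤ 1 := by
            rw [Complex.norm_real, Real.norm_of_nonneg (rho_nonneg _)]
            exact rho_le_one _
          rw [e1]
          calc ArithmeticFunction.vonMangoldt n * ‖χ n‖ * _ ≤
                ArithmeticFunction.vonMangoldt n * 1 * 1 := by
                apply mul_le_mul _ e3 (norm_nonneg _) (by positivity)
                exact mul_le_mul_of_nonneg_left e2 h0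
            _ = _ := by ring
      _ = Chebyshev.psi (8 * X) - Chebyshev.theta (8 * X) := by
          rw [Chebyshev.psi_sub_theta_eq_sum_not_prime]
          rfl
      _ ≤ _ := Chebyshev.psi_sub_theta_le (by linarith)
  refine le_trans (add_le_add hA hB) ?_
  -- numbers
  have hZ1 : 1 ≤ 8 * X := by linarith
  have hZ0 : 0 < 8 * X := by linarith
  have hlogZ : Real.log (8 * X) ≤ 10 * (8 * X) ^ (1 / 10 : ℝ) := by
    have := Real.log_le_rpow_div hZ0.le (by norm_num : (0 : ℝ) < 1 / 10)
    linarith
  have hlogN : Real.log N ≤ Real.log (8 * X) := Real.log_le_log (by linarith) hNle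
  have hlogN0 : 0 ≤ Real.log N := Real.log_nonneg hN1
  have hlogZ0 : 0 ≤ Real.log (8 * X) := le_trans hlogN0 hlogN
  have hp1 : 1 ≤ (8 * X) ^ (1 / 10 : ℝ) := Real.one_le_rpow hZ1 (by norm_num)
  set a := (8 * X) ^ (1 / 10 : ℝ) with ha
  have hsq : Real.sqrt (8 * X) = a ^ 5 := by
    rw [Real.sqrt_eq_rpow, ha, ← Real.rpow_natCast, ← Real.rpow_mul hZ0.le]; norm_num
  have h35 : (8 * c : ℝ) ^ (3 / 5 : ℝ) * x ^ (3 / 5 : ℝ) = a ^ 6 := by
    rw [← Real.mul_rpow (by positivity) (by linarith), ha, ← Real.rpow_natCast,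
      ← Real.rpow_mul hZ0.le, hX]
    norm_num
    ring_nf
  rw [mul_assoc (2 * K * 110 + 20), h35, hsq]
  have e1 : Real.log N * (1 + Real.log N) ≤ 110 * a ^ 6 := by
    calc Real.log N * (1 + Real.log N) ≤ (10 * a) * (a + 10 * a) := by
          apply mul_le_mul (le_trans hlogN hlogZ) _ (by linarith) (by positivity)
          linarith [le_trans hlogN hlogZ]
      _ = 110 * a ^ 2 := by ring
      _ ≤ 110 * a ^ 6 := by
          apply mul_le_mul_of_nonneg_left _ (by norm_num)
          exact pow_le_pow_right₀ hp1 (by norm_num)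
  have e2 : 2 * a ^ 5 * Real.log (8 * X) ≤ 20 * a ^ 6 := by
    calc 2 * a ^ 5 * Real.log (8 * X) ≤ 2 * a ^ 5 * (10 * a) := by
          apply mul_le_mul_of_nonneg_left hlogZ (by positivity)
      _ = 20 * a ^ 6 := by ring
  nlinarith [mul_le_mul_of_nonneg_left e1 (by positivity : 0 ≤ 2 * K)]

end MTA
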