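import Pool.Agent.H20.MT.Stmts

/-! Project MTA, module LIP: Lipschitz bounds for Dirichlet L-series. -/

set_option autoImplicit false

namespace MTA
open Finset

theorem LIP_deriv {r : ℕ} [NeZero r] (χ : DirichletCharacter ℂ r) (s : ℂ) (hs : 1 < s.re) :
    HasDerivAt (Lj χ 0) (-Lj χ 1 s) s := by
  have e0 : (fun n : ℕ => (χ n : ℂ) * (Real.log n : ℂ) ^ 0) = (fun n : ℕ => (χ n : ℂ)) := by
    funext n; simp
  have h1 : HasDerivAt (LSeries (fun n : ℕ => (χ n : ℂ)))
      (-LSeries (LSeries.logMul (fun n : ℕ => (χ n : ℂ))) s) s := by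
    apply LSeries_hasDerivAt
    rw [DirichletCharacter.absicssaOfAbsConv_eq_one (NeZero.ne r)]
    exact_mod_cast hs
  have h2 : LSeries (LSeries.logMul (fun n : ℕ => (χ n : ℂ))) s = Lj χ 1 s := by
    unfold Lj
    apply LSeries_congr
    intro n _
    simp only [LSeries.logMul, pow_one]
    rw [Complex.natCast_log]; ring
  have h3 : Lj χ 0 = LSeries (fun n : ℕ => (χ n : ℂ)) := by
    funext z
    unfold Lj
    rw [e0]
  rw [h3, ← h2]
  exact h1

theorem LIP_eq {r : ℕ} [NeZero r] (χ : DirichletCharacter ℂ r) (s : ℂ) (hs : 1 < s.re) :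
    Lj χ 0 s = χ.LFunction s := by
  rw [DirichletCharacter.LFunction_eq_LSeries χ hs]
  unfold Lj
  congr 1
  funext n
  simp

theorem LIP (hL : S_LUP) : S_LIP := by
  obtain ⟨C1, hC1, h1⟩ := hL 1
  refine ⟨4 * C1, by positivity, ?_⟩
  intro r _ χ hχ
  have hr : 1 ≤ r := Nat.pos_of_ne_zero (NeZero.ne r)
  have hr' : (1 : ℝ) ≤ r := by exact_mod_cast hr
  refine ⟨?_, ?_⟩
  · intro a b t ha ha2 hb hb2
    let S : Set ℂ := {z | 1 < z.re} ∩ {z | z.re ≤ 2} ∩ {z | z.im ≤ t} ∩ {z | t ≤ z.im}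
    have hconv : Convex ℝ S :=
      (((convex_halfSpace_re_gt 1).inter (convex_halfSpace_re_le 2)).inter
        (convex_halfSpace_im_le t)).inter (convex_halfSpace_im_ge t)
    have hmem : ∀ c : ℝ, 1 < c → c ≤ 2 → ((c : ℂ) + t * Complex.I) ∈ S := by
      intro c h1 h2
      refine ⟨⟨⟨?_, ?_⟩, ?_⟩, ?_⟩ <;> simp [h1, h2]
    have hm := hconv.norm_image_sub_le_of_norm_hasDerivWithin_le (f := Lj χ 0)
      (f' := fun z => -Lj χ 1 z) (C := C1 * (LL r t) ^ 2)
      (fun z hz => (LIP_deriv χ z hz.1.1.1).hasDerivWithinAt)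
      (by
        intro z hz
        have him : z.im = t := le_antisymm hz.1.2 hz.2
        rw [norm_neg, ← him]
        exact h1 r χ hχ z hz.1.1.1 hz.1.1.2)
      (hmem b hb hb2) (hmem a ha ha2)
    refine le_trans hm ?_
    have e : ((a : ℂ) + t * Complex.I) - ((b : ℂ) + t * Complex.I) = ((a - b : ℝ) : ℂ) := by
      push_cast; ring
    rw [e, Complex.norm_real, Real.norm_eq_abs]
    have h0 : 0 ≤ C1 * (LL r t) ^ 2 * |a - b| := by positivity
    calc C1 * (LL r t) ^ 2 * |a - b| ≤ 4 * (C1 * (LL r t) ^ 2 * |a - b|) := by linarith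
      _ = _ := by ring
  · intro a t ha ha2 ht
    let S : Set ℂ := {z | 1 < z.re} ∩ {z | z.re ≤ 2} ∩ {z | z.im ≤ 1} ∩ {z | -1 ≤ z.im}
    have hconv : Convex ℝ S :=
      (((convex_halfSpace_re_gt 1).inter (convex_halfSpace_re_le 2)).inter
        (convex_halfSpace_im_le 1)).inter (convex_halfSpace_im_ge (-1))
    have hLL : ∀ u : ℝ, |u| ≤ 1 → 0 ≤ LL r u ∧ LL r u ≤ 2 * LL r 0 := by
      intro u hu
      unfold LL
      rw [abs_zero, zero_add]
      have h3 : (3 : ℝ) ≤ r * 3 := by linarith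
      have hup : (r : ℝ) * (|u| + 3) ≤ (r * 3) ^ 2 := by nlinarith [abs_nonneg u]
      have hlow : (1 : ℝ) ≤ r * (|u| + 3) := by nlinarith [abs_nonneg u]
      refine ⟨Real.log_nonneg hlow, ?_⟩
      have := Real.log_le_log (by linarith) hup
      rwa [Real.log_pow] at this
    have hL0 : 0 ≤ LL r 0 := (hLL 0 (by simp)).1
    have hb : ∀ z ∈ S, ‖-Lj χ 1 z‖ ≤ 4 * C1 * (LL r 0) ^ 2 := by
      intro z hz
      rw [norm_neg]
      refine le_trans (h1 r χ hχ z hz.1.1.1 hz.1.1.2) ?_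
      have h2 := hLL z.im (abs_le.mpr ⟨hz.2, hz.1.2⟩)
      have h3 : (LL r z.im) ^ (1 + 1) ≤ (2 * LL r 0) ^ 2 := by
        exact pow_le_pow_left₀ h2.1 h2.2 2
      calc C1 * (LL r z.im) ^ (1 + 1) ≤ C1 * (2 * LL r 0) ^ 2 :=
            mul_le_mul_of_nonneg_left h3 hC1.le
        _ = _ := by ring
    have ht' := abs_le.mp ht
    have hmemA : ((a : ℂ) + t * Complex.I) ∈ S := by
      refine ⟨⟨⟨?_, ?_⟩, ?_⟩, ?_⟩ <;> simp [ha, ha2, ht'.1, ht'.2]
    have hmemB : ∀ b : ℝ, 1 < b → b ≤ 2 → ((b : ℝ) : ℂ) ∈ S := by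
      intro b h1 h2
      refine ⟨⟨⟨?_, ?_⟩, ?_⟩, ?_⟩ <;> simp [h1, h2]
    have hm : ∀ b : ℝ, 1 < b → b ≤ 2 → ‖Lj χ 0 (a + t * Complex.I) - χ.LFunction (b : ℂ)‖ ≤
        4 * C1 * (LL r 0) ^ 2 * ‖((a : ℂ) + t * Complex.I) - b‖ := by
      intro b hb1 hb2
      rw [← LIP_eq χ (b : ℂ) (by simpa using hb1)]
      exact hconv.norm_image_sub_le_of_norm_hasDerivWithin_le (f := Lj χ 0)
        (f' := fun z => -Lj χ 1 z)
        (fun z hz => (LIP_deriv χ z hz.1.1.1).hasDerivWithinAt) hb (hmemB b hb1 hb2) hmemA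
    have hcont : Continuous (fun b : ℝ => ‖Lj χ 0 (a + t * Complex.I) - χ.LFunction (b : ℂ)‖) := by
      have := (DirichletCharacter.differentiable_LFunction hχ).continuous
      exact (continuous_const.sub (this.comp Complex.continuous_ofReal)).norm
    have hcont2 : Continuous (fun b : ℝ => 4 * C1 * (LL r 0) ^ 2 * ‖((a : ℂ) + t * Complex.I) - b‖) := by
      exact continuous_const.mul ((continuous_const.sub Complex.continuous_ofReal).norm)
    have hlim := le_of_tendsto_of_tendsto (b := nhdsWithin (1 : ℝ) (Set.Ioi 1))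
      ((hcont.tendsto 1).mono_left nhdsWithin_le_nhds)
      ((hcont2.tendsto 1).mono_left nhdsWithin_le_nhds)
      (by
        have : Set.Ioc (1 : ℝ) 2 ∈ nhdsWithin (1 : ℝ) (Set.Ioi 1) := Ioc_mem_nhdsGT (by norm_num)
        filter_upwards [this] with b hb
        exact hm b hb.1 hb.2)
    simp only [Complex.ofReal_one] at hlim
    refine le_trans hlim ?_
    have hn : ‖((a : ℂ) + t * Complex.I) - 1‖ ≤ (a - 1) + |t| := by
      have e : ((a : ℂ) + t * Complex.I) - 1 = ((a - 1 : ℝ) : ℂ) + t * Complex.I := by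
        push_cast; ring
      rw [e]
      refine le_trans (norm_add_le _ _) ?_
      rw [Complex.norm_real, Real.norm_of_nonneg (by linarith), norm_mul, Complex.norm_I, mul_one,
        Complex.norm_real, Real.norm_eq_abs]
    calc 4 * C1 * (LL r 0) ^ 2 * ‖((a : ℂ) + t * Complex.I) - 1‖ ≤
          4 * C1 * (LL r 0) ^ 2 * ((a - 1) + |t|) := by
          apply mul_le_mul_of_nonneg_left hn (by positivity)
      _ = _ := by ring

end MTA
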