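import Pool.Agent.H20.MT.Stmts

/-! Project MTA, module LUP: upper bounds for Dirichlet series on the right of the line `Re s = 1`. -/

set_option autoImplicit false

namespace MTA
open Finset

theorem LUP_tsum {t : ℕ → ℂ} {B : ℝ} (h : ∀ K, ‖∑ n ∈ range K, t n‖ ≤ B) : ‖∑' n, t n‖ ≤ B := by
  by_cases hs : Summable t
  · exact le_of_tendsto hs.hasSum.tendsto_sum_nat.norm (Filter.Eventually.of_forall h)
  · rw [tsum_eq_zero_of_not_summable hs, norm_zero]
    have := h 0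
    rw [range_zero, sum_empty, norm_zero] at this
    exact this

/-- Abel summation on a block -/
theorem LUP_abel (a f : ℕ → ℂ) (N : ℕ) (Bd : ℝ) (hA : ∀ m, ‖∑ n ∈ Ico N m, a n‖ ≤ Bd) (K : ℕ)
    (hK : N ≤ K) : ‖∑ n ∈ Ico N K, a n * f n‖ ≤
      Bd * (‖f N‖ + 2 * ∑ n ∈ Ico N K, ‖f n - f (n + 1)‖) := by
  have hBd : 0 ≤ Bd := le_trans (norm_nonneg _) (hA N)
  have e : ∀ K, N ≤ K → ∑ n ∈ Ico N K, a n * f n = (∑ n ∈ Ico N K, a n) * f K +
      ∑ n ∈ Ico N K, (∑ i ∈ Ico N (n + 1), a i) * (f n - f (n + 1)) := by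
    intro K hK
    induction K, hK using Nat.le_induction with
    | base => simp
    | succ K hK ih =>
      rw [sum_Ico_succ_top hK, ih, sum_Ico_succ_top hK, sum_Ico_succ_top hK]
      ring_nf
      rw [show 1 + K = K + 1 by ring, sum_Ico_succ_top hK]
      ring
  have hf : ∀ K, N ≤ K → ‖f K‖ ≤ ‖f N‖ + ∑ n ∈ Ico N K, ‖f n - f (n + 1)‖ := by
    intro K hK
    induction K, hK using Nat.le_induction with
    | base => simp
    | succ K hK ih =>
      rw [sum_Ico_succ_top hK]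
      have : ‖f (K + 1)‖ ≤ ‖f K‖ + ‖f K - f (K + 1)‖ := by
        calc ‖f (K + 1)‖ = ‖f K - (f K - f (K + 1))‖ := by congr 1; ring
          _ ≤ _ := norm_sub_le _ _
      linarith
  rw [e K hK]
  have h1 : ‖(∑ n ∈ Ico N K, a n) * f K‖ ≤ Bd * (‖f N‖ + ∑ n ∈ Ico N K, ‖f n - f (n + 1)‖) := by
    rw [norm_mul]
    exact mul_le_mul (hA K) (hf K hK) (norm_nonneg _) hBd
  have h2 : ‖∑ n ∈ Ico N K, (∑ i ∈ Ico N (n + 1), a i) * (f n - f (n + 1))‖ ≤
      Bd * ∑ n ∈ Ico N K, ‖f n - f (n + 1)‖ := by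
    refine le_trans (norm_sum_le _ _) ?_
    rw [mul_sum]
    apply sum_le_sum
    intro n _
    rw [norm_mul]
    exact mul_le_mul_of_nonneg_right (hA _) (norm_nonneg _)
  refine le_trans (norm_add_le _ _) ?_
  linarith

/-- block sums of a nonprincipal character -/
theorem LUP_char {r : ℕ} [NeZero r] (χ : DirichletCharacter ℂ r) (hχ : χ ≠ 1) :
    ∀ (L N : ℕ), ‖∑ i ∈ range L, χ ((N + i : ℕ) : ZMod r)‖ ≤ r := by
  intro L
  have hr : 0 < r := Nat.pos_of_ne_zero (NeZero.ne r)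
  have hz : ∀ N : ℕ, ∑ i ∈ range r, χ ((N + i : ℕ) : ZMod r) = 0 := by
    intro N
    have h1 : ∑ i ∈ range r, χ ((N + i : ℕ) : ZMod r) = ∑ a : ZMod r, χ a := by
      apply sum_nbij' (fun i => ((N + i : ℕ) : ZMod r)) (fun a => (a - (N : ZMod r)).val)
      · intro i _; exact mem_univ _
      · intro a _
        rw [mem_range]; exact ZMod.val_lt _
      · intro i hi
        rw [mem_range] at hi
        push_cast
        rw [add_sub_cancel_left, ZMod.val_natCast, Nat.mod_eq_of_lt hi]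
      · intro a _
        push_cast
        rw [ZMod.natCast_zmod_val]; ring
      · intro i _; rfl
    rw [h1]
    exact MulChar.sum_eq_zero_of_ne_one hχ
  induction L using Nat.strong_induction_on with
  | _ L ih =>
    intro N
    by_cases hL : L < r
    · calc ‖∑ i ∈ range L, χ ((N + i : ℕ) : ZMod r)‖ ≤ ∑ i ∈ range L, ‖χ ((N + i : ℕ) : ZMod r)‖ :=
            norm_sum_le _ _
        _ ≤ ∑ i ∈ range L, (1 : ℝ) := sum_le_sum (fun i _ => χ.norm_le_one _)
        _ = L := by simp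
        _ ≤ r := by exact_mod_cast hL.le
    · obtain ⟨M, rfl⟩ : ∃ M, L = r + M := ⟨L - r, by omega⟩
      rw [sum_range_add, hz N, zero_add]
      have := ih M (by omega) (N + r)
      refine le_trans (le_of_eq ?_) this
      congr 1
      apply sum_congr rfl
      intro i _
      rw [add_assoc]

theorem LUP_block {r : ℕ} [NeZero r] (χ : DirichletCharacter ℂ r) (hχ : χ ≠ 1) (N m : ℕ) :
    ‖∑ n ∈ Ico N m, χ (n : ZMod r)‖ ≤ r := by
  rw [sum_Ico_eq_sum_range]
  exact LUP_char χ hχ _ _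

/-- the difference of consecutive powers -/
theorem LUP_pow (s : ℂ) (hs : 1 < s.re) (n : ℕ) (hn : 1 ≤ n) :
    ‖((n : ℂ)) ^ (-s) - ((n + 1 : ℕ) : ℂ) ^ (-s)‖ ≤ ‖s‖ / (n : ℝ) ^ 2 := by
  have hn0 : (0 : ℝ) < n := by exact_mod_cast hn
  have hd : ∀ x ∈ Set.Icc (n : ℝ) (n + 1), HasDerivWithinAt (fun u : ℝ => ((u : ℂ)) ^ (-s))
      (-s * (x : ℂ) ^ (-s - 1)) (Set.Icc (n : ℝ) (n + 1)) x := by
    intro x hx
    have hx0 : 0 < x := lt_of_lt_of_le hn0 hx.1
    have h1 : HasDerivAt (fun z : ℂ => z ^ (-s)) (-s * (x : ℂ) ^ (-s - 1)) (x : ℂ) := by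
      have := (hasDerivAt_id (x : ℂ)).cpow_const (c := -s)
        (by simp only [id]; exact Complex.ofReal_mem_slitPlane.mpr hx0)
      simpa using this
    exact (h1.comp_ofReal).hasDerivWithinAt
  have hb : ∀ x ∈ Set.Ico (n : ℝ) (n + 1), ‖-s * (x : ℂ) ^ (-s - 1)‖ ≤ ‖s‖ / (n : ℝ) ^ 2 := by
    intro x hx
    have hx0 : 0 < x := lt_of_lt_of_le hn0 hx.1
    rw [norm_mul, norm_neg, Complex.norm_cpow_eq_rpow_re_of_pos hx0, div_eq_mul_inv]
    apply mul_le_mul_of_nonneg_left _ (norm_nonneg _)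
    have h1 : (1 : ℝ) ≤ x := le_trans (by exact_mod_cast hn) hx.1
    have h2 : (-s - 1).re ≤ -2 := by simp; linarith
    calc x ^ (-s - 1).re ≤ x ^ (-2 : ℝ) := Real.rpow_le_rpow_of_exponent_le h1 h2
      _ ≤ (n : ℝ) ^ (-2 : ℝ) := Real.rpow_le_rpow_of_nonpos hn0 hx.1 (by norm_num)
      _ = ((n : ℝ) ^ 2)⁻¹ := by
          rw [Real.rpow_neg hn0.le]; norm_cast
  have := norm_image_sub_le_of_norm_deriv_le_segment' hd hb (n + 1) (by constructor <;> linarith)
  rw [norm_sub_rev]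
  refine le_trans (le_of_eq ?_) (le_trans this (le_of_eq ?_))
  · push_cast; rfl
  · rw [add_sub_cancel_left, mul_one]

theorem LUP_powdiff (j : ℕ) (x y : ℝ) (hy : 0 ≤ y) (hxy : y ≤ x) (hx : 1 ≤ x) :
    x ^ j - y ^ j ≤ j * x ^ j * (x - y) := by
  induction j with
  | zero => simp
  | succ j ih =>
    have h1 : y ^ j ≤ x ^ j := pow_le_pow_left₀ hy hxy j
    have h2 : x ^ j ≤ x ^ (j + 1) := pow_le_pow_right₀ hx (by omega)
    have h3 : x ^ (j + 1) - y ^ (j + 1) = x * (x ^ j - y ^ j) + (x - y) * y ^ j := by ring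
    rw [h3]
    have h4 : x * (x ^ j - y ^ j) ≤ x * (j * x ^ j * (x - y)) :=
      mul_le_mul_of_nonneg_left ih (by linarith)
    have h5 : (x - y) * y ^ j ≤ (x - y) * x ^ (j + 1) :=
      mul_le_mul_of_nonneg_left (h1.trans h2) (by linarith)
    push_cast
    calc _ ≤ x * (j * x ^ j * (x - y)) + (x - y) * x ^ (j + 1) := add_le_add h4 h5
      _ = _ := by ring

/-- the summand -/
noncomputable def LUP_f (j : ℕ) (s : ℂ) (n : ℕ) : ℂ := (Real.log n : ℂ) ^ j * (n : ℂ) ^ (-s)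

theorem LUP_normpow (s : ℂ) (hs : 1 < s.re) (n : ℕ) (hn : 1 ≤ n) : ‖(n : ℂ) ^ (-s)‖ ≤ 1 / n := by
  have hn0 : (0 : ℝ) < n := by exact_mod_cast hn
  have hn1 : (1 : ℝ) ≤ n := by exact_mod_cast hn
  rw [show ((n : ℕ) : ℂ) = ((n : ℝ) : ℂ) by push_cast; rfl,
    Complex.norm_cpow_eq_rpow_re_of_pos hn0]
  calc (n : ℝ) ^ (-s).re ≤ (n : ℝ) ^ (-1 : ℝ) :=
        Real.rpow_le_rpow_of_exponent_le hn1 (by simp; linarith)
    _ = 1 / n := by rw [Real.rpow_neg_one, one_div]

theorem LUP_normf (j : ℕ) (s : ℂ) (hs : 1 < s.re) (n : ℕ) (hn : 1 ≤ n) :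
    ‖LUP_f j s n‖ ≤ (Real.log n) ^ j / n := by
  have hn1 : (1 : ℝ) ≤ n := by exact_mod_cast hn
  unfold LUP_f
  rw [norm_mul, norm_pow, Complex.norm_real, Real.norm_of_nonneg (Real.log_nonneg hn1),
    div_eq_mul_one_div]
  apply mul_le_mul_of_nonneg_left (LUP_normpow s hs n hn)
  exact pow_nonneg (Real.log_nonneg hn1) _

theorem LUP_fdiff (j : ℕ) (s : ℂ) (hs : 1 < s.re) (n : ℕ) (hn : 2 ≤ n) :
    ‖LUP_f j s n - LUP_f j s (n + 1)‖ ≤ (j + ‖s‖) * ((Real.log (n + 1)) ^ j / (n : ℝ) ^ 2) := by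
  have hn2 : (2 : ℝ) ≤ n := by exact_mod_cast hn
  have hn0 : (0 : ℝ) < n := by linarith
  have hl0 : 0 ≤ Real.log n := Real.log_nonneg (by linarith)
  have hl1 : Real.log n ≤ Real.log (n + 1) := Real.log_le_log hn0 (by linarith)
  have hl2 : 1 ≤ Real.log (n + 1) := by
    rw [Real.le_log_iff_exp_le (by linarith)]
    have := Real.exp_one_lt_d9
    linarith
  have e : LUP_f j s n - LUP_f j s (n + 1) =
      ((Real.log n : ℂ) ^ j - (Real.log (n + 1) : ℂ) ^ j) * (n : ℂ) ^ (-s) +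
      (Real.log (n + 1) : ℂ) ^ j * ((n : ℂ) ^ (-s) - ((n + 1 : ℕ) : ℂ) ^ (-s)) := by
    unfold LUP_f
    push_cast
    ring
  rw [e]
  refine le_trans (norm_add_le _ _) ?_
  have h1 : ‖((Real.log n : ℂ) ^ j - (Real.log (n + 1) : ℂ) ^ j) * (n : ℂ) ^ (-s)‖ ≤
      j * ((Real.log (n + 1)) ^ j / (n : ℝ) ^ 2) := by
    rw [norm_mul]
    have e1 : ‖(Real.log n : ℂ) ^ j - (Real.log (n + 1) : ℂ) ^ j‖ ≤
        j * (Real.log (n + 1)) ^ j * (1 / n) := by
      rw [← Complex.ofReal_pow, ← Complex.ofReal_pow, ← Complex.ofReal_sub, Complex.norm_real,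
        Real.norm_eq_abs, abs_sub_comm, abs_of_nonneg (sub_nonneg.mpr (pow_le_pow_left₀ hl0 hl1 j))]
      refine le_trans (LUP_powdiff j _ _ hl0 hl1 hl2) ?_
      apply mul_le_mul_of_nonneg_left _ (by positivity)
      rw [← Real.log_div (by positivity) hn0.ne']
      have := Real.log_le_sub_one_of_pos (show 0 < ((n : ℝ) + 1) / n by positivity)
      refine le_trans this (le_of_eq ?_)
      field_simp
      ring
    calc _ ≤ (j * (Real.log (n + 1)) ^ j * (1 / n)) * (1 / n) := by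
          apply mul_le_mul e1 (LUP_normpow s hs n (by omega)) (norm_nonneg _) (by positivity)
      _ = _ := by field_simp
  have h2 : ‖(Real.log (n + 1) : ℂ) ^ j * ((n : ℂ) ^ (-s) - ((n + 1 : ℕ) : ℂ) ^ (-s))‖ ≤
      ‖s‖ * ((Real.log (n + 1)) ^ j / (n : ℝ) ^ 2) := by
    rw [norm_mul, norm_pow, Complex.norm_real, Real.norm_of_nonneg (by linarith)]
    calc _ ≤ (Real.log (n + 1)) ^ j * (‖s‖ / (n : ℝ) ^ 2) := by
          apply mul_le_mul_of_nonneg_left (LUP_pow s hs n (by omega)) (by positivity)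
      _ = _ := by ring
  linarith

theorem LUP_logpow (j : ℕ) (y : ℝ) (hy : 1 ≤ y) : (1 + Real.log y) ^ j ≤ (2 * j + 3) ^ j * Real.sqrt y := by
  have hy0 : 0 < y := by linarith
  have hε : (0 : ℝ) < 1 / (2 * (j + 1)) := by positivity
  have h1 := Real.log_le_rpow_div hy0.le hε
  have h2 : 1 ≤ y ^ (1 / (2 * ((j : ℝ) + 1))) := Real.one_le_rpow hy hε.le
  have h3 : 1 + Real.log y ≤ (2 * j + 3) * y ^ (1 / (2 * ((j : ℝ) + 1))) := by
    have : y ^ (1 / (2 * ((j : ℝ) + 1))) / (1 / (2 * ((j : ℝ) + 1))) =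
      (2 * j + 2) * y ^ (1 / (2 * ((j : ℝ) + 1))) := by field_simp
    rw [this] at h1
    nlinarith
  have h0 : 0 ≤ 1 + Real.log y := by have := Real.log_nonneg hy; linarith
  calc (1 + Real.log y) ^ j ≤ ((2 * j + 3) * y ^ (1 / (2 * ((j : ℝ) + 1)))) ^ j :=
        pow_le_pow_left₀ h0 h3 j
    _ = (2 * j + 3) ^ j * (y ^ (1 / (2 * ((j : ℝ) + 1)))) ^ j := mul_pow _ _ _
    _ ≤ (2 * j + 3) ^ j * Real.sqrt y := by
        apply mul_le_mul_of_nonneg_left _ (by positivity)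
        rw [← Real.rpow_natCast, ← Real.rpow_mul hy0.le, Real.sqrt_eq_rpow]
        apply Real.rpow_le_rpow_of_exponent_le hy
        rw [div_mul_eq_mul_div, div_le_div_iff₀ (by positivity) (by norm_num)]
        linarith

theorem LUP_tele (n : ℕ) (hn : 2 ≤ n) :
    Real.sqrt n / (n : ℝ) ^ 2 ≤ 2 * (1 / Real.sqrt ((n : ℝ) - 1) - 1 / Real.sqrt n) := by
  have hn2 : (2 : ℝ) ≤ n := by exact_mod_cast hn
  set a := Real.sqrt n with ha
  set b := Real.sqrt ((n : ℝ) - 1) with hb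
  have hb0 : 0 < b := Real.sqrt_pos.mpr (by linarith)
  have hab : b ≤ a := Real.sqrt_le_sqrt (by linarith)
  have ha2 : a ^ 2 = n := Real.sq_sqrt (by linarith)
  have hb2 : b ^ 2 = n - 1 := Real.sq_sqrt (by linarith)
  have ha0 : 0 < a := by linarith
  have h1 : (a - b) * (a + b) = 1 := by nlinarith
  have h2 : 1 / b - 1 / a = 1 / ((a + b) * a * b) := by
    field_simp
    linarith
  rw [h2, ← ha2]
  have h3 : a / (a ^ 2) ^ 2 = 1 / a ^ 3 := by field_simp
  rw [h3]
  have h4 : 2 * (1 / ((a + b) * a * b)) = 1 / ((a + b) * a * b / 2) := by field_simp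
  rw [h4]
  apply one_div_le_one_div_of_le (by positivity)
  have h5 : (a + b) * a * b ≤ (2 * a) * a * a := by
    apply mul_le_mul _ hab hb0.le (by positivity)
    apply mul_le_mul_of_nonneg_right _ ha0.le
    linarith
  nlinarith

theorem LUP_V (j N K : ℕ) (hN : 3 ≤ N) (hK : N ≤ K) :
    ∑ n ∈ Ico N K, (Real.log (n + 1)) ^ j / (n : ℝ) ^ 2 ≤
      8 * (2 * j + 3) ^ j * ((Real.log N) ^ j / N) := by
  have hN3 : (3 : ℝ) ≤ N := by exact_mod_cast hN
  have hN0 : (0 : ℝ) < N := by linarith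
  have hlN : 1 ≤ Real.log N := by
    rw [Real.le_log_iff_exp_le (by linarith)]
    have := Real.exp_one_lt_d9
    linarith
  set D : ℝ := (2 * j + 3) ^ j * (Real.log N) ^ j * Real.sqrt (2 / N) with hD
  have hD0 : 0 ≤ D := by positivity
  have hterm : ∀ n ∈ Ico N K, (Real.log (n + 1)) ^ j / (n : ℝ) ^ 2 ≤
      D * (2 * (1 / Real.sqrt ((n : ℝ) - 1) - 1 / Real.sqrt n)) := by
    intro n hn
    have hn' := mem_Ico.mp hn
    have hnN : (N : ℝ) ≤ n := by exact_mod_cast hn'.1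
    have hn0 : (0 : ℝ) < n := by linarith
    have hy : 1 ≤ ((n : ℝ) + 1) / N := by rw [one_le_div hN0]; linarith
    have h1 : Real.log (n + 1) ≤ Real.log N * (1 + Real.log (((n : ℝ) + 1) / N)) := by
      have e : Real.log (((n : ℝ) + 1) / N) = Real.log (n + 1) - Real.log N :=
        Real.log_div (by positivity) hN0.ne'
      have h0 := Real.log_nonneg hy
      nlinarith
    have hl0 : 0 ≤ Real.log ((n : ℝ) + 1) := Real.log_nonneg (by linarith)
    have h2 : (Real.log (n + 1)) ^ j ≤ D * Real.sqrt n := by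
      calc (Real.log (n + 1)) ^ j ≤ (Real.log N * (1 + Real.log (((n : ℝ) + 1) / N))) ^ j :=
            pow_le_pow_left₀ hl0 h1 j
        _ = (Real.log N) ^ j * (1 + Real.log (((n : ℝ) + 1) / N)) ^ j := mul_pow _ _ _
        _ ≤ (Real.log N) ^ j * ((2 * j + 3) ^ j * Real.sqrt (((n : ℝ) + 1) / N)) := by
            apply mul_le_mul_of_nonneg_left (LUP_logpow j _ hy) (by positivity)
        _ ≤ (Real.log N) ^ j * ((2 * j + 3) ^ j * (Real.sqrt (2 / N) * Real.sqrt n)) := by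
            apply mul_le_mul_of_nonneg_left _ (by positivity)
            apply mul_le_mul_of_nonneg_left _ (by positivity)
            rw [← Real.sqrt_mul (by positivity)]
            apply Real.sqrt_le_sqrt
            rw [div_mul_eq_mul_div, div_le_div_iff_of_pos_right hN0]
            linarith
        _ = D * Real.sqrt n := by rw [hD]; ring
    calc (Real.log (n + 1)) ^ j / (n : ℝ) ^ 2 ≤ (D * Real.sqrt n) / (n : ℝ) ^ 2 :=
          div_le_div_of_nonneg_right h2 (by positivity)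
      _ = D * (Real.sqrt n / (n : ℝ) ^ 2) := by ring
      _ ≤ _ := by
          apply mul_le_mul_of_nonneg_left (LUP_tele n (by omega)) hD0
  refine le_trans (sum_le_sum hterm) ?_
  rw [← mul_sum, ← mul_sum]
  have htel : ∑ n ∈ Ico N K, (1 / Real.sqrt ((n : ℝ) - 1) - 1 / Real.sqrt n) =
      1 / Real.sqrt ((N : ℝ) - 1) - 1 / Real.sqrt ((K : ℝ) - 1) := by
    clear hterm
    induction K, hK using Nat.le_induction with
    | base => simp
    | succ K hK ih =>
      rw [sum_Ico_succ_top hK, ih]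
      push_cast
      rw [add_sub_cancel_right]
      ring
  rw [htel]
  have h6 : 1 / Real.sqrt ((N : ℝ) - 1) - 1 / Real.sqrt ((K : ℝ) - 1) ≤ Real.sqrt (2 / N) := by
    have h7 : 0 ≤ 1 / Real.sqrt ((K : ℝ) - 1) := by positivity
    have h8 : 1 / Real.sqrt ((N : ℝ) - 1) ≤ Real.sqrt (2 / N) := by
      rw [← Real.sqrt_one, ← Real.sqrt_div (by norm_num)]
      apply Real.sqrt_le_sqrt
      rw [Real.sqrt_one, div_le_div_iff₀ (by linarith) hN0]
      linarith
    linarith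
  calc D * (2 * (1 / Real.sqrt ((N : ℝ) - 1) - 1 / Real.sqrt ((K : ℝ) - 1))) ≤
        D * (2 * Real.sqrt (2 / N)) := by
        apply mul_le_mul_of_nonneg_left _ hD0
        linarith
    _ = 2 * (2 * j + 3) ^ j * (Real.log N) ^ j * (Real.sqrt (2 / N) * Real.sqrt (2 / N)) := by
        rw [hD]; ring
    _ = 2 * (2 * j + 3) ^ j * (Real.log N) ^ j * (2 / N) := by
        rw [Real.mul_self_sqrt (by positivity)]
    _ ≤ 8 * (2 * j + 3) ^ j * ((Real.log N) ^ j / N) := by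
        have : 0 ≤ (2 * (j : ℝ) + 3) ^ j * ((Real.log N) ^ j / N) := by positivity
        have e : 2 * (2 * (j : ℝ) + 3) ^ j * (Real.log N) ^ j * (2 / N) =
          4 * ((2 * (j : ℝ) + 3) ^ j * ((Real.log N) ^ j / N)) := by ring
        rw [e]
        linarith

theorem LUP_LL (r : ℕ) (hr : 1 ≤ r) (t : ℝ) : 1 ≤ LL r t := by
  unfold LL
  have hr' : (1 : ℝ) ≤ r := by exact_mod_cast hr
  have h1 : (3 : ℝ) ≤ r * (|t| + 3) := by nlinarith [abs_nonneg t]
  rw [Real.le_log_iff_exp_le (by linarith)]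
  have := Real.exp_one_lt_d9
  linarith

theorem LUP_harm (N : ℕ) (hN : 1 ≤ N) : ∑ n ∈ Ico 1 N, (1 : ℝ) / n ≤ 1 + Real.log N := by
  have h2 := harmonic_le_one_add_log N
  rw [harmonic_eq_sum_Icc] at h2
  push_cast at h2
  refine le_trans ?_ h2
  simp_rw [one_div]
  apply sum_le_sum_of_subset_of_nonneg
  · intro n hn
    rw [mem_Ico] at hn
    rw [mem_Icc]; omega
  · intro n _ _
    positivity

theorem LUP : S_LUP := by
  intro j
  refine ⟨2 ^ j * (4 + 16 * (2 * j + 3) ^ j * (j + 1)), by positivity, ?_⟩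
  intro r _ χ hχ s hs1 hs2
  have hr : 1 ≤ r := Nat.pos_of_ne_zero (NeZero.ne r)
  have hr' : (1 : ℝ) ≤ r := by exact_mod_cast hr
  set t := s.im with ht
  set N : ℕ := ⌈(r : ℝ) * (|t| + 3)⌉₊ with hN
  have hA3 : (3 : ℝ) ≤ r * (|t| + 3) := by nlinarith [abs_nonneg t]
  have hNge : (r : ℝ) * (|t| + 3) ≤ N := Nat.le_ceil _
  have hNlt : (N : ℝ) < r * (|t| + 3) + 1 := Nat.ceil_lt_add_one (by linarith)
  have hN3' : (3 : ℝ) ≤ N := by linarith
  have hN3 : 3 ≤ N := by exact_mod_cast hN3'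
  have hN0 : (0 : ℝ) < N := by linarith
  set Lg := LL r t with hLg
  have hLg1 : 1 ≤ Lg := LUP_LL r hr t
  have hlogN : Real.log N ≤ 2 * Lg := by
    have h1 : Real.log N ≤ Real.log (2 * (r * (|t| + 3))) := Real.log_le_log hN0 (by linarith)
    rw [Real.log_mul (by norm_num) (by positivity)] at h1
    have h2 : Real.log 2 < 1 := by have := Real.log_two_lt_d9; linarith
    have h3 : Real.log (r * (|t| + 3)) = Lg := rfl
    linarith
  have hlogN1 : 1 ≤ Real.log N := by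
    rw [Real.le_log_iff_exp_le (by linarith)]
    have := Real.exp_one_lt_d9
    linarith
  have hlogN0 : 0 ≤ Real.log N := by linarith
  -- the terms
  have hterm : ∀ n : ℕ, 1 ≤ n → LSeries.term (fun n => χ n * (Real.log n : ℂ) ^ j) s n =
      χ n * LUP_f j s n := by
    intro n hn
    rw [LSeries.term_of_ne_zero (by omega)]
    unfold LUP_f
    rw [Complex.cpow_neg]
    ring
  have hterm0 : LSeries.term (fun n => χ n * (Real.log n : ℂ) ^ j) s 0 = 0 := LSeries.term_zero _ _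
  have hnorm : ∀ n : ℕ, 1 ≤ n → n ≤ N →
      ‖LSeries.term (fun n => χ n * (Real.log n : ℂ) ^ j) s n‖ ≤ (Real.log N) ^ j * (1 / n) := by
    intro n hn hnN
    rw [hterm n hn, norm_mul]
    have hn1 : (1 : ℝ) ≤ n := by exact_mod_cast hn
    have hl : Real.log n ≤ Real.log N := Real.log_le_log (by linarith) (by exact_mod_cast hnN)
    have hl0 : 0 ≤ Real.log n := Real.log_nonneg hn1
    calc ‖χ n‖ * ‖LUP_f j s n‖ ≤ 1 * ((Real.log n) ^ j / n) := by
          apply mul_le_mul (χ.norm_le_one _) (LUP_normf j s hs1 n hn) (norm_nonneg _) zero_le_one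
      _ = (Real.log n) ^ j * (1 / n) := by ring
      _ ≤ _ := by
          apply mul_le_mul_of_nonneg_right (pow_le_pow_left₀ hl0 hl j) (by positivity)
  have hhead : ∀ K, K ≤ N →
      ‖∑ n ∈ range K, LSeries.term (fun n => χ n * (Real.log n : ℂ) ^ j) s n‖ ≤
      (Real.log N) ^ j * (1 + Real.log N) := by
    intro K hK
    refine le_trans (norm_sum_le _ _) ?_
    calc ∑ n ∈ range K, ‖LSeries.term (fun n => χ n * (Real.log n : ℂ) ^ j) s n‖ ≤
          ∑ n ∈ range N, ‖LSeries.term (fun n => χ n * (Real.log n : ℂ) ^ j) s n‖ := by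
          apply sum_le_sum_of_subset_of_nonneg (range_subset_range.mpr hK)
          intro n _ _; exact norm_nonneg _
      _ = ∑ n ∈ Ico 1 N, ‖LSeries.term (fun n => χ n * (Real.log n : ℂ) ^ j) s n‖ := by
          rw [range_eq_Ico, sum_eq_sum_Ico_succ_bot (by omega), hterm0, norm_zero, zero_add]
      _ ≤ ∑ n ∈ Ico 1 N, (Real.log N) ^ j * (1 / (n : ℝ)) := by
          apply sum_le_sum
          intro n hn
          rw [mem_Ico] at hn
          exact hnorm n hn.1 hn.2.le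
      _ = (Real.log N) ^ j * ∑ n ∈ Ico 1 N, 1 / (n : ℝ) := by rw [mul_sum]
      _ ≤ _ := by
          apply mul_le_mul_of_nonneg_left (LUP_harm N (by omega)) (by positivity)
  have htail : ∀ K, N ≤ K → ‖∑ n ∈ Ico N K, LSeries.term (fun n => χ n * (Real.log n : ℂ) ^ j) s n‖ ≤
      (Real.log N) ^ j * (1 + 16 * (2 * j + 3) ^ j * (j + 1)) := by
    intro K hK
    have e : ∑ n ∈ Ico N K, LSeries.term (fun n => χ n * (Real.log n : ℂ) ^ j) s n =
        ∑ n ∈ Ico N K, (χ n : ℂ) * LUP_f j s n := by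
      apply sum_congr rfl
      intro n hn
      rw [mem_Ico] at hn
      exact hterm n (by omega)
    rw [e]
    refine le_trans (LUP_abel _ _ N r (fun m => LUP_block χ hχ N m) K hK) ?_
    have h1 : ‖LUP_f j s N‖ ≤ (Real.log N) ^ j / N := LUP_normf j s hs1 N (by omega)
    have h2 : ∑ n ∈ Ico N K, ‖LUP_f j s n - LUP_f j s (n + 1)‖ ≤
        (j + ‖s‖) * (8 * (2 * j + 3) ^ j * ((Real.log N) ^ j / N)) := by
      calc _ ≤ ∑ n ∈ Ico N K, (j + ‖s‖) * ((Real.log (n + 1)) ^ j / (n : ℝ) ^ 2) := by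
            apply sum_le_sum
            intro n hn
            rw [mem_Ico] at hn
            exact LUP_fdiff j s hs1 n (by omega)
        _ = (j + ‖s‖) * ∑ n ∈ Ico N K, (Real.log (n + 1)) ^ j / (n : ℝ) ^ 2 := by rw [mul_sum]
        _ ≤ _ := by
            apply mul_le_mul_of_nonneg_left (LUP_V j N K hN3 hK) (by positivity)
    have hs : ‖s‖ ≤ |t| + 3 := by
      have := Complex.norm_le_abs_re_add_abs_im s
      rw [abs_of_pos (by linarith : 0 < s.re)] at this
      linarith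
    have hrN : (r : ℝ) / N ≤ 1 / (|t| + 3) := by
      rw [div_le_div_iff₀ hN0 (by positivity)]
      linarith
    have hrN1 : (r : ℝ) / N ≤ 1 := by
      refine le_trans hrN ?_
      rw [div_le_one (by positivity)]
      linarith [abs_nonneg t]
    have hrN2 : (r : ℝ) / N * (j + ‖s‖) ≤ j + 1 := by
      have h3 : (r : ℝ) / N * ‖s‖ ≤ 1 := by
        calc (r : ℝ) / N * ‖s‖ ≤ 1 / (|t| + 3) * (|t| + 3) := by
              apply mul_le_mul hrN hs (norm_nonneg _) (by positivity)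
          _ = 1 := by field_simp
      have h4 : (r : ℝ) / N * j ≤ j := by
        have : (0 : ℝ) ≤ j := Nat.cast_nonneg j
        nlinarith
      nlinarith
    have hr0 : (0 : ℝ) ≤ r := by linarith
    calc (r : ℝ) * (‖LUP_f j s N‖ + 2 * ∑ n ∈ Ico N K, ‖LUP_f j s n - LUP_f j s (n + 1)‖) ≤
          r * ((Real.log N) ^ j / N + 2 * ((j + ‖s‖) * (8 * (2 * j + 3) ^ j * ((Real.log N) ^ j / N)))) := by
          apply mul_le_mul_of_nonneg_left _ hr0
          linarith
      _ = (Real.log N) ^ j * (r / N + 16 * (2 * j + 3) ^ j * (r / N * (j + ‖s‖))) := by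
          field_simp
          ring
      _ ≤ (Real.log N) ^ j * (1 + 16 * (2 * j + 3) ^ j * (j + 1)) := by
          apply mul_le_mul_of_nonneg_left _ (by positivity)
          have := mul_le_mul_of_nonneg_left hrN2 (by positivity : (0 : ℝ) ≤ 16 * (2 * j + 3) ^ j)
          linarith
  have hall : ∀ K, ‖∑ n ∈ range K, LSeries.term (fun n => χ n * (Real.log n : ℂ) ^ j) s n‖ ≤
      (Real.log N) ^ j * (1 + Real.log N) + (Real.log N) ^ j * (1 + 16 * (2 * j + 3) ^ j * (j + 1)) := by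
    intro K
    have hnn : 0 ≤ (Real.log N) ^ j * (1 + 16 * (2 * (j : ℝ) + 3) ^ j * (j + 1)) := by positivity
    rcases le_total K N with h | h
    · have := hhead K h; linarith
    · rw [range_eq_Ico, ← sum_Ico_consecutive _ (Nat.zero_le N) h, ← range_eq_Ico]
      exact le_trans (norm_add_le _ _) (add_le_add (hhead N le_rfl) (htail K h))
  refine le_trans (LUP_tsum hall) ?_
  have hpj : (Real.log N) ^ j ≤ (2 * Lg) ^ j := pow_le_pow_left₀ hlogN0 hlogN j
  have hC0 : 0 ≤ 16 * (2 * (j : ℝ) + 3) ^ j * (j + 1) := by positivity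
  calc (Real.log N) ^ j * (1 + Real.log N) + (Real.log N) ^ j * (1 + 16 * (2 * j + 3) ^ j * (j + 1)) =
        (Real.log N) ^ j * (2 + Real.log N + 16 * (2 * j + 3) ^ j * (j + 1)) := by ring
    _ ≤ (2 * Lg) ^ j * ((4 + 16 * (2 * j + 3) ^ j * (j + 1)) * Lg) := by
        apply mul_le_mul hpj _ (by positivity) (by positivity)
        nlinarith
    _ = _ := by rw [mul_pow, pow_succ]; ring

end MTA
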