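import Pool.Agent.H20.MT.Stmts
import Pool.Agent.H85.MTA.LUP

/-! Project MTA, module ZUP: upper bounds for the Dirichlet series of the principal character. -/

set_option autoImplicit false

namespace MTA
open Finset

theorem ZUP_pow (s : ℂ) (hs : 1 < s.re) (n : ℕ) (hn : 1 ≤ n) (u : ℝ) (hu : u ∈ Set.Icc (n : ℝ) (n + 1)) :
    ‖((u : ℂ)) ^ (-s) - ((n : ℝ) : ℂ) ^ (-s)‖ ≤ ‖s‖ / (n : ℝ) ^ 2 := by
  have hn0 : (0 : ℝ) < n := by exact_mod_cast hn
  have hd : ∀ x ∈ Set.Icc (n : ℝ) (n + 1), HasDerivWithinAt (fun u : ℝ => ((u : ℂ)) ^ (-s))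
      (-s * (x : ℂ) ^ (-s - 1)) (Set.Icc (n : ℝ) (n + 1)) x := by
    intro x hx
    have hx0 : 0 < x := lt_of_lt_of_le hn0 hx.1
    have h1 : HasDerivAt (fun z : ℂ => z ^ (-s)) (-s * (x : ℂ) ^ (-s - 1)) (x : ℂ) := by
      have := (hasDerivAt_id (x : ℂ)).cpow_const (c := -s)
        (by simp only [id]; exact Complex.ofReal_mem_slitPlane.mpr hx0)
      simpa using this
    exact (h1.comp_ofReal).hasDerivWithinAt
  have hb : ∀ x ∈ Set.Ico (n : ℝ) (n + 1), ‖-s * (x : ℂ) ^ (-s - 1)‖ ≤ ‖s‖ / (n : ℝ) ^ 2 := by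
    intro x hx
    have hx0 : 0 < x := lt_of_lt_of_le hn0 hx.1
    rw [norm_mul, norm_neg, Complex.norm_cpow_eq_rpow_re_of_pos hx0, div_eq_mul_inv]
    apply mul_le_mul_of_nonneg_left _ (norm_nonneg _)
    have h1 : (1 : ℝ) ≤ x := le_trans (by exact_mod_cast hn) hx.1
    have h2 : (-s - 1).re ≤ -2 := by simp; linarith
    calc x ^ (-s - 1).re ≤ x ^ (-2 : ℝ) := Real.rpow_le_rpow_of_exponent_le h1 h2
      _ ≤ (n : ℝ) ^ (-2 : ℝ) := Real.rpow_le_rpow_of_nonpos hn0 hx.1 (by norm_num)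
      _ = ((n : ℝ) ^ 2)⁻¹ := by
          rw [Real.rpow_neg hn0.le]; norm_cast
  have := norm_image_sub_le_of_norm_deriv_le_segment' hd hb u hu
  refine le_trans this ?_
  have h1 : u - n ≤ 1 := by linarith [hu.2]
  have h2 : 0 ≤ ‖s‖ / (n : ℝ) ^ 2 := by positivity
  nlinarith

/-- the primitive of `u ^ (-s)` -/
noncomputable def ZUP_G (s : ℂ) (u : ℝ) : ℂ := (u : ℂ) ^ (1 - s) / (1 - s)

theorem ZUP_int (s : ℂ) (hs : 1 < s.re) (n : ℕ) (hn : 1 ≤ n) :
    ‖((n : ℝ) : ℂ) ^ (-s) - (ZUP_G s (n + 1) - ZUP_G s n)‖ ≤ ‖s‖ / (n : ℝ) ^ 2 := by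
  have hn0 : (0 : ℝ) < n := by exact_mod_cast hn
  have hs1 : (1 - s) ≠ 0 := by
    intro h
    have : s = 1 := by linear_combination -h
    rw [this] at hs; simp at hs
  have hd : ∀ x ∈ Set.Icc (n : ℝ) (n + 1), HasDerivWithinAt
      (fun u : ℝ => ZUP_G s u - ((n : ℝ) : ℂ) ^ (-s) * (u : ℂ))
      ((x : ℂ) ^ (-s) - ((n : ℝ) : ℂ) ^ (-s)) (Set.Icc (n : ℝ) (n + 1)) x := by
    intro x hx
    have hx0 : 0 < x := lt_of_lt_of_le hn0 hx.1
    have h1 : HasDerivAt (fun z : ℂ => z ^ (1 - s) / (1 - s) - ((n : ℝ) : ℂ) ^ (-s) * z)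
        ((x : ℂ) ^ (-s) - ((n : ℝ) : ℂ) ^ (-s)) (x : ℂ) := by
      have h2 := (hasDerivAt_id (x : ℂ)).cpow_const (c := 1 - s)
        (by simp only [id]; exact Complex.ofReal_mem_slitPlane.mpr hx0)
      have h3 := (h2.div_const (1 - s)).sub ((hasDerivAt_id (x : ℂ)).const_mul (((n : ℝ) : ℂ) ^ (-s)))
      refine HasDerivAt.congr_deriv (f := fun z : ℂ => z ^ (1 - s) / (1 - s) - ((n : ℝ) : ℂ) ^ (-s) * z)
        h3 ?_
      rw [show (1 - s - 1) = -s by ring]
      simp only [id, mul_one]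
      field_simp
    exact (h1.comp_ofReal).hasDerivWithinAt
  have hb : ∀ x ∈ Set.Ico (n : ℝ) (n + 1), ‖(x : ℂ) ^ (-s) - ((n : ℝ) : ℂ) ^ (-s)‖ ≤
      ‖s‖ / (n : ℝ) ^ 2 := fun x hx => ZUP_pow s hs n hn x ⟨hx.1, hx.2.le⟩
  have := norm_image_sub_le_of_norm_deriv_le_segment' hd hb (n + 1) (by constructor <;> linarith)
  rw [add_sub_cancel_left, mul_one] at this
  rw [norm_sub_rev]
  refine le_trans (le_of_eq ?_) this
  congr 1
  push_cast
  ring

theorem ZUP_Gnorm (s : ℂ) (hs : 1 < s.re) (ht : s.im ≠ 0) (u : ℝ) (hu : 1 ≤ u) :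
    ‖ZUP_G s u‖ ≤ 1 / |s.im| := by
  unfold ZUP_G
  have hu0 : 0 < u := by linarith
  rw [norm_div, Complex.norm_cpow_eq_rpow_re_of_pos hu0]
  have h1 : u ^ (1 - s).re ≤ 1 := by
    apply Real.rpow_le_one_of_one_le_of_nonpos hu
    simp; linarith
  have h2 : |s.im| ≤ ‖1 - s‖ := by
    have := Complex.abs_im_le_norm (1 - s)
    simpa using this
  have h3 : 0 < |s.im| := abs_pos.mpr ht
  apply div_le_div₀ zero_le_one h1 h3 h2

theorem ZUP_sq (N K : ℕ) (hN : 2 ≤ N) (hK : N ≤ K) :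
    ∑ n ∈ Ico N K, (1 : ℝ) / (n : ℝ) ^ 2 ≤ 1 / ((N : ℝ) - 1) := by
  have hN2 : (2 : ℝ) ≤ N := by exact_mod_cast hN
  have h : ∑ n ∈ Ico N K, (1 : ℝ) / (n : ℝ) ^ 2 ≤ 1 / ((N : ℝ) - 1) - 1 / ((K : ℝ) - 1) := by
    induction K, hK using Nat.le_induction with
    | base => simp
    | succ K hK ih =>
      rw [sum_Ico_succ_top hK]
      have hK2 : (2 : ℝ) ≤ K := le_trans hN2 (by exact_mod_cast hK)
      have h1 : (1 : ℝ) / (K : ℝ) ^ 2 ≤ 1 / ((K : ℝ) - 1) - 1 / K := by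
        rw [div_sub_div _ _ (by linarith) (by linarith), div_le_div_iff₀ (by positivity)
          (by nlinarith)]
        nlinarith
      push_cast
      rw [add_sub_cancel_right]
      linarith
  have hK1 : 0 ≤ 1 / ((K : ℝ) - 1) := by
    have : (2 : ℝ) ≤ K := le_trans hN2 (by exact_mod_cast hK)
    apply div_nonneg zero_le_one; linarith
  linarith

theorem ZUP_zeta (s : ℂ) (hs : 1 < s.re) (hs2 : s.re ≤ 2) (ht : s.im ≠ 0) :
    ‖riemannZeta s‖ ≤ 3 + Real.log (|s.im| + 3) + 2 / |s.im| := by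
  rw [zeta_eq_tsum_one_div_nat_cpow hs]
  set t := s.im with htdef
  set N : ℕ := ⌈|t| + 3⌉₊ + 1 with hN
  have hge : |t| + 3 ≤ (⌈|t| + 3⌉₊ : ℝ) := Nat.le_ceil _
  have hlt : ((⌈|t| + 3⌉₊ : ℕ) : ℝ) < |t| + 3 + 1 := Nat.ceil_lt_add_one (by positivity)
  have hNc : (N : ℝ) = (⌈|t| + 3⌉₊ : ℝ) + 1 := by rw [hN]; push_cast; rfl
  have hN1 : |t| + 3 ≤ (N : ℝ) - 1 := by rw [hNc]; linarith
  have hN2 : (N : ℝ) ≤ |t| + 5 := by rw [hNc]; linarith
  have hN4 : (4 : ℝ) ≤ N := by linarith [abs_nonneg t]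
  have hN4' : 4 ≤ N := by exact_mod_cast hN4
  have ht0 : 0 < |t| := abs_pos.mpr ht
  have hlogN : Real.log N ≤ 1 + Real.log (|t| + 3) := by
    have h1 : Real.log N ≤ Real.log (2 * (|t| + 3)) := Real.log_le_log (by linarith) (by linarith)
    rw [Real.log_mul (by norm_num) (by positivity)] at h1
    have h2 : Real.log 2 < 1 := by have := Real.log_two_lt_d9; linarith
    linarith
  have hlogN0 : 0 ≤ Real.log N := Real.log_nonneg (by linarith)
  have hs0 : s ≠ 0 := by intro h; rw [h] at hs; simp at hs; linarith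
  have hterm : ∀ n : ℕ, 1 ≤ n → (1 : ℂ) / (n : ℂ) ^ s = ((n : ℝ) : ℂ) ^ (-s) := by
    intro n _
    rw [Complex.cpow_neg, one_div]; push_cast; rfl
  have hterm0 : (1 : ℂ) / ((0 : ℕ) : ℂ) ^ s = 0 := by
    rw [Nat.cast_zero, Complex.zero_cpow hs0, div_zero]
  have hn1 : ∀ n : ℕ, 1 ≤ n → ‖(1 : ℂ) / (n : ℂ) ^ s‖ ≤ 1 / n := by
    intro n hn
    rw [hterm n hn]
    have := LUP_normpow s hs n hn
    simpa using this
  have hhead : ∀ K, K ≤ N → ‖∑ n ∈ range K, (1 : ℂ) / (n : ℂ) ^ s‖ ≤ 1 + Real.log N := by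
    intro K hK
    refine le_trans (norm_sum_le _ _) ?_
    calc ∑ n ∈ range K, ‖(1 : ℂ) / (n : ℂ) ^ s‖ ≤ ∑ n ∈ range N, ‖(1 : ℂ) / (n : ℂ) ^ s‖ := by
          apply sum_le_sum_of_subset_of_nonneg (range_subset_range.mpr hK)
          intro n _ _; exact norm_nonneg _
      _ = ∑ n ∈ Ico 1 N, ‖(1 : ℂ) / (n : ℂ) ^ s‖ := by
          rw [range_eq_Ico, sum_eq_sum_Ico_succ_bot (by omega), hterm0, norm_zero, zero_add]
      _ ≤ ∑ n ∈ Ico 1 N, (1 / (n : ℝ)) := by
          apply sum_le_sum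
          intro n hn
          rw [mem_Ico] at hn
          exact hn1 n hn.1
      _ ≤ _ := LUP_harm N (by omega)
  have htail : ∀ K, N ≤ K → ‖∑ n ∈ Ico N K, (1 : ℂ) / (n : ℂ) ^ s‖ ≤ 2 / |t| + 1 := by
    intro K hK
    have e : ∑ n ∈ Ico N K, (1 : ℂ) / (n : ℂ) ^ s = (ZUP_G s K - ZUP_G s N) +
        ∑ n ∈ Ico N K, (((n : ℝ) : ℂ) ^ (-s) - (ZUP_G s (n + 1) - ZUP_G s n)) := by
      rw [sum_sub_distrib]
      have e2 : ∑ n ∈ Ico N K, (ZUP_G s ((n : ℝ) + 1) - ZUP_G s n) = ZUP_G s K - ZUP_G s N := by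
        have := Finset.sum_Ico_sub (fun n : ℕ => ZUP_G s (n : ℝ)) hK
        rw [← this]
        apply sum_congr rfl
        intro n _
        push_cast
        rfl
      rw [e2]
      have e3 : ∑ n ∈ Ico N K, (1 : ℂ) / (n : ℂ) ^ s = ∑ n ∈ Ico N K, ((n : ℝ) : ℂ) ^ (-s) := by
        apply sum_congr rfl
        intro n hn
        rw [mem_Ico] at hn
        exact hterm n (by omega)
      rw [e3]; ring
    rw [e]
    refine le_trans (norm_add_le _ _) ?_
    have h1 : ‖ZUP_G s K - ZUP_G s N‖ ≤ 2 / |t| := by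
      refine le_trans (norm_sub_le _ _) ?_
      have hK1 : (1 : ℝ) ≤ K := by
        have : (N : ℝ) ≤ K := by exact_mod_cast hK
        linarith
      have := ZUP_Gnorm s hs ht K hK1
      have h2 := ZUP_Gnorm s hs ht N (by linarith)
      have e4 : 2 / |t| = 1 / |t| + 1 / |t| := by ring
      rw [e4]
      exact add_le_add this h2
    have h2 : ‖∑ n ∈ Ico N K, (((n : ℝ) : ℂ) ^ (-s) - (ZUP_G s (n + 1) - ZUP_G s n))‖ ≤ 1 := by
      refine le_trans (norm_sum_le _ _) ?_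
      calc _ ≤ ∑ n ∈ Ico N K, ‖s‖ * (1 / (n : ℝ) ^ 2) := by
            apply sum_le_sum
            intro n hn
            rw [mem_Ico] at hn
            rw [mul_one_div]
            exact ZUP_int s hs n (by omega)
        _ = ‖s‖ * ∑ n ∈ Ico N K, (1 / (n : ℝ) ^ 2) := by rw [mul_sum]
        _ ≤ ‖s‖ * (1 / ((N : ℝ) - 1)) := by
            apply mul_le_mul_of_nonneg_left (ZUP_sq N K (by omega) hK) (norm_nonneg _)
        _ ≤ 1 := by
            have hsn : ‖s‖ ≤ |t| + 3 := by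
              have := Complex.norm_le_abs_re_add_abs_im s
              rw [abs_of_pos (by linarith : 0 < s.re)] at this
              linarith
            rw [mul_one_div, div_le_one (by linarith [abs_nonneg t])]
            linarith
    linarith
  have hall : ∀ K, ‖∑ n ∈ range K, (1 : ℂ) / (n : ℂ) ^ s‖ ≤ (1 + Real.log N) + (2 / |t| + 1) := by
    intro K
    have : 0 ≤ 2 / |t| + 1 := by positivity
    rcases le_total K N with h | h
    · have := hhead K h; linarith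
    · rw [range_eq_Ico, ← sum_Ico_consecutive _ (Nat.zero_le N) h, ← range_eq_Ico]
      exact le_trans (norm_add_le _ _) (add_le_add (hhead N le_rfl) (htail K h))
  refine le_trans (LUP_tsum hall) ?_
  linarith

theorem ZUP_prod (r : ℕ) (hr : 1 ≤ r) : ∏ p ∈ r.primeFactors, (1 + 1 / (p : ℝ)) ≤ 1 + Real.log r := by
  have h1 : ∏ p ∈ r.primeFactors, (1 + 1 / (p : ℝ)) =
      ∑ T ∈ r.primeFactors.powerset, 1 / ((∏ p ∈ T, p : ℕ) : ℝ) := by
    rw [Finset.prod_one_add]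
    apply sum_congr rfl
    intro T _
    push_cast
    rw [prod_div_distrib, prod_const_one]
  have hinj : Set.InjOn (fun T : Finset ℕ => ∏ p ∈ T, p) (r.primeFactors.powerset : Set (Finset ℕ)) := by
    intro T hT T' hT' h
    have hp : ∀ T ∈ (r.primeFactors.powerset : Set (Finset ℕ)), (∏ p ∈ T, p).primeFactors = T := by
      intro T hT
      apply Nat.primeFactors_prod
      intro p hp
      have := Finset.mem_powerset.mp (Finset.mem_coe.mp hT)
      exact Nat.prime_of_mem_primeFactors (this hp)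
    rw [← hp T hT, ← hp T' hT']
    exact congrArg Nat.primeFactors h
  have h2 : ∑ T ∈ r.primeFactors.powerset, 1 / ((∏ p ∈ T, p : ℕ) : ℝ) =
      ∑ n ∈ r.primeFactors.powerset.image (fun T : Finset ℕ => ∏ p ∈ T, p), 1 / (n : ℝ) := by
    rw [sum_image hinj]
  rw [h1, h2]
  have h3 := harmonic_le_one_add_log r
  rw [harmonic_eq_sum_Icc] at h3
  push_cast at h3
  refine le_trans ?_ h3
  simp_rw [one_div]
  apply sum_le_sum_of_subset_of_nonneg
  · intro n hn
    obtain ⟨T, hT, rfl⟩ := mem_image.mp hn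
    have hT' := mem_powerset.mp hT
    have hd : (∏ p ∈ T, p) ∣ r :=
      (Finset.prod_dvd_prod_of_subset _ _ _ hT').trans (Nat.prod_primeFactors_dvd r)
    rw [mem_Icc]
    exact ⟨Nat.pos_of_dvd_of_pos hd hr, Nat.le_of_dvd hr hd⟩
  · intro n _ _
    positivity

theorem ZUP_real (σ : ℝ) (hσ : 1 < σ) (K : ℕ) :
    ∑ n ∈ Ico 1 K, ((n : ℝ)) ^ (-σ) ≤ 1 + 1 / (σ - 1) := by
  rcases Nat.lt_or_ge K 2 with h | h
  · have : Ico 1 K = ∅ := by
      rw [Ico_eq_empty_iff]; omega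
    rw [this, sum_empty]
    have : 0 < σ - 1 := by linarith
    positivity
  · obtain ⟨a, rfl⟩ : ∃ a, K = a + 2 := ⟨K - 2, by omega⟩
    rw [sum_eq_sum_Ico_succ_bot (by omega)]
    have h1 : ∑ n ∈ Ico (1 + 1) (a + 2), ((n : ℝ)) ^ (-σ) =
        ∑ i ∈ range a, ((1 : ℝ) + ((i + 1 : ℕ) : ℝ)) ^ (-σ) := by
      rw [sum_Ico_eq_sum_range]
      apply sum_congr (by congr 1)
      intro i _
      congr 1
      push_cast
      ring
    rw [h1]
    have h2 : ∑ i ∈ range a, ((1 : ℝ) + ((i + 1 : ℕ) : ℝ)) ^ (-σ) ≤ ∫ x in (1 : ℝ)..(1 + a), x ^ (-σ) := by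
      apply AntitoneOn.sum_le_integral (f := fun x : ℝ => x ^ (-σ))
      intro x hx y hy hxy
      exact Real.rpow_le_rpow_of_nonpos (by linarith [hx.1]) hxy (by linarith)
    have h3 : ∫ x in (1 : ℝ)..(1 + a), x ^ (-σ) ≤ 1 / (σ - 1) := by
      rw [integral_rpow (Or.inr ⟨by linarith, by
        rw [Set.uIcc_of_le (by linarith [(Nat.cast_nonneg a : (0 : ℝ) ≤ a)])]
        intro h; linarith [h.1]⟩)]
      rw [Real.one_rpow]
      have h4 : 0 ≤ (1 + (a : ℝ)) ^ (-σ + 1) := by positivity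
      have h5 : ((1 + (a : ℝ)) ^ (-σ + 1) - 1) / (-σ + 1) = (1 - (1 + (a : ℝ)) ^ (-σ + 1)) / (σ - 1) := by
        rw [← neg_div_neg_eq]; congr 1 <;> ring
      rw [h5]
      apply div_le_div_of_nonneg_right _ (by linarith)
      linarith
    have h6 : ((1 : ℕ) : ℝ) ^ (-σ) = 1 := by simp
    rw [h6]
    linarith

theorem ZUP : S_ZUP := by
  refine ⟨8, by norm_num, ?_⟩
  intro r _ s hs1 hs2
  have hr : 1 ≤ r := Nat.pos_of_ne_zero (NeZero.ne r)
  have hr' : (1 : ℝ) ≤ r := by exact_mod_cast hr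
  refine ⟨?_, ?_⟩
  · intro ht
    have e1 : Lj (1 : DirichletCharacter ℂ r) 0 s = DirichletCharacter.LFunctionTrivChar r s := by
      rw [DirichletCharacter.LFunctionTrivChar, DirichletCharacter.LFunction_eq_LSeries _ hs1]
      unfold Lj
      congr 1
      funext n
      simp
    have hs1' : s ≠ 1 := by intro h; rw [h] at hs1; simp at hs1
    rw [e1, DirichletCharacter.LFunctionTrivChar_eq_mul_riemannZeta hs1', norm_mul]
    set t := s.im with htdef
    set Lg := LL r t with hLg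
    have hLg1 : 1 ≤ Lg := LUP_LL r hr t
    have hlog1 : Real.log (|t| + 3) ≤ Lg := by
      rw [hLg]; unfold LL
      apply Real.log_le_log (by positivity)
      nlinarith [abs_nonneg t]
    have hlog2 : Real.log r ≤ Lg := by
      rw [hLg]; unfold LL
      apply Real.log_le_log (by linarith)
      nlinarith [abs_nonneg t]
    have hp : ‖∏ p ∈ r.primeFactors, (1 - (p : ℂ) ^ (-s))‖ ≤ 2 * Lg := by
      rw [norm_prod]
      calc ∏ p ∈ r.primeFactors, ‖1 - (p : ℂ) ^ (-s)‖ ≤ ∏ p ∈ r.primeFactors, (1 + 1 / (p : ℝ)) := by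
            apply prod_le_prod
            · intro p _; exact norm_nonneg _
            · intro p hp
              have hp1 : 1 ≤ p := (Nat.prime_of_mem_primeFactors hp).one_le
              refine le_trans (norm_sub_le _ _) ?_
              rw [norm_one]
              have := LUP_normpow s hs1 p hp1
              linarith
        _ ≤ 1 + Real.log r := ZUP_prod r hr
        _ ≤ 2 * Lg := by linarith
    have hz := ZUP_zeta s hs1 hs2 ht
    have ht0 : 0 < |t| := abs_pos.mpr ht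
    have hz2 : ‖riemannZeta s‖ ≤ 4 * Lg * (1 + 1 / |t|) := by
      refine le_trans hz ?_
      have h1 : 0 < 1 / |t| := by positivity
      have h2 : 2 / |s.im| = 2 * (1 / |t|) := by rw [htdef]; ring
      rw [h2]
      nlinarith
    calc _ ≤ (2 * Lg) * (4 * Lg * (1 + 1 / |t|)) := by
          apply mul_le_mul hp hz2 (norm_nonneg _) (by positivity)
      _ = 8 * Lg ^ 2 * (1 + 1 / |t|) := by ring
  · unfold Lj LSeries
    have h0 : 0 < s.re - 1 := by linarith
    refine LUP_tsum (fun K => ?_)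
    refine le_trans (norm_sum_le _ _) ?_
    have hterm : ∀ n : ℕ, 1 ≤ n →
        ‖LSeries.term (fun n => (1 : DirichletCharacter ℂ r) n * (Real.log n : ℂ) ^ 0) s n‖ ≤
        (n : ℝ) ^ (-s.re) := by
      intro n hn
      have hn0 : (0 : ℝ) < n := by exact_mod_cast hn
      rw [LSeries.term_of_ne_zero (by omega), norm_div, pow_zero, mul_one,
        show ((n : ℕ) : ℂ) = ((n : ℝ) : ℂ) by push_cast; rfl,
        Complex.norm_cpow_eq_rpow_re_of_pos hn0, Real.rpow_neg hn0.le, ← one_div]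
      apply div_le_div_of_nonneg_right (DirichletCharacter.norm_le_one _ _) (by positivity)
    calc ∑ n ∈ range K, ‖LSeries.term (fun n => (1 : DirichletCharacter ℂ r) n *
          (Real.log n : ℂ) ^ 0) s n‖ ≤ ∑ n ∈ Ico 1 K, ((n : ℝ)) ^ (-s.re) := by
          rcases Nat.eq_zero_or_pos K with h | h
          · subst h; simp
          · rw [range_eq_Ico, sum_eq_sum_Ico_succ_bot h, LSeries.term_zero, norm_zero, zero_add]
            apply sum_le_sum
            intro n hn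
            rw [mem_Ico] at hn
            exact hterm n hn.1
      _ ≤ 1 + 1 / (s.re - 1) := ZUP_real s.re hs1 K
      _ ≤ 2 / (s.re - 1) := by
          have : 1 ≤ 1 / (s.re - 1) := by rw [le_div_iff₀ h0]; linarith
          have e : 2 / (s.re - 1) = 1 / (s.re - 1) + 1 / (s.re - 1) := by ring
          rw [e]; linarith

end MTA
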